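import Mathlib
import Pool.Agent.Helper91.HilbFun
import Pool.Agent.Helper91.HilbRep
import Pool.Agent.Helper91.SmallComp

/-!
Hilbert schemes of points on reduced curves can have irreducible components of dimension
smaller than the number of points, by an arbitrarily large amount.
-/

open CategoryTheory Limits AlgebraicGeometry Pool.Agent.Helper91

universe u

namespace Pool.Agent.Results.MP_d4b31a_ag.SmallComponent

/-- For every field `k` and every `N` there are an integral affine curve `C` of finite type over
`k` and an integer `d ≥ 1` such that the Hilbert scheme `H` of `d` points of `C` has an irreducible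
component `Y` with `dim Y + N ≤ d`. -/
theorem result (k : Type u) [Field k] (N : ℕ) :
    ∃ (C : Scheme.{u}) (f : C ⟶ Spec (CommRingCat.of k)) (d : ℕ) (H : Scheme.{u})
      (h : H ⟶ Spec (CommRingCat.of k)),
      IsAffine C ∧ IsIntegral C ∧ LocallyOfFiniteType f ∧ topologicalKrullDim C = 1 ∧
      1 ≤ d ∧ IsHilbertScheme d f h ∧
      ∃ Y ∈ irreducibleComponents H, topologicalKrullDim Y + N ≤ d := by
  obtain ⟨d, hd, hcomp⟩ := exists_small_component k N
  obtain ⟨H, h, hH⟩ := exists_isHilbertScheme k (curveRing k N) d
  have hF : ∀ n, frob (N + 3) < n → n ∈ sgFam (N + 3) := fun n hn => mem_sgFam_of_lt hn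
  refine ⟨Spec (CommRingCat.of (curveRing k N)), str k (curveRing k N), d, H, h,
    inferInstance, ?_, ?_, ?_, hd, hH, hcomp H h hH⟩
  · infer_instance
  · have hft : Algebra.FiniteType k (curveRing k N) := sgAlg.finiteType k _ _ hF
    rw [HasRingHomProperty.Spec_iff (P := @LocallyOfFiniteType), CommRingCat.hom_ofHom,
      RingHom.finiteType_algebraMap]
    exact hft
  · rw [topologicalKrullDim_Spec]
    exact sgAlg.ringKrullDim_eq k _ _ hF

end Pool.Agent.Results.MP_d4b31a_ag.SmallComponent
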